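import Mathlib

/-!
# MP_340815_al: words in right-angled Artin groups, a verified commute-and-cancel checker

Letters are natural numbers: `2 * g` is the generator `g`, `2 * g + 1` its inverse. Everything is
stated for an arbitrary group `Q` with a family `x : ℕ → Q` such that `comm i j = true` implies
that `x i` and `x j` commute.
-/

set_option autoImplicit false

namespace Pool.Agent.MP_340815_al.H75

section Words

variable {Q : Type*} [Group Q]

/-- The value of a letter. -/
def letter (x : ℕ → Q) (l : ℕ) : Q := bif Nat.beq (l % 2) 0 then x (l / 2) else (x (l / 2))⁻¹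

/-- The value of a word. -/
def ev (x : ℕ → Q) : List ℕ → Q
  | [] => 1
  | l :: w => letter x l * ev x w

@[simp] theorem ev_nil (x : ℕ → Q) : ev x [] = 1 := rfl

@[simp] theorem ev_cons (x : ℕ → Q) (l : ℕ) (w : List ℕ) :
    ev x (l :: w) = letter x l * ev x w := rfl

theorem ev_append (x : ℕ → Q) (w1 w2 : List ℕ) : ev x (w1 ++ w2) = ev x w1 * ev x w2 := by
  induction w1 with
  | nil => simp
  | cons l w ih => simp [ih, mul_assoc]

/-- The inverse letter. -/
def invL (l : ℕ) : ℕ := bif Nat.beq (l % 2) 0 then l + 1 else l - 1

theorem letter_invL (x : ℕ → Q) (l : ℕ) : letter x (invL l) = (letter x l)⁻¹ := by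
  unfold letter invL
  rcases Nat.even_or_odd l with h | h
  · obtain ⟨k, rfl⟩ := h
    have h1 : (k + k) % 2 = 0 := by omega
    have h2 : (k + k + 1) % 2 = 1 := by omega
    have h3 : (k + k) / 2 = k := by omega
    have h4 : (k + k + 1) / 2 = k := by omega
    have h5 : Nat.beq 1 0 = false := rfl
    have h6 : Nat.beq 0 0 = true := rfl
    simp only [h1, h2, h3, h4, h5, h6, cond_true, cond_false]
  · obtain ⟨k, rfl⟩ := h
    have h1 : (2 * k + 1) % 2 = 1 := by omega
    have h2 : (2 * k + 1 - 1) % 2 = 0 := by omega
    have h3 : (2 * k + 1) / 2 = k := by omega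
    have h4 : (2 * k + 1 - 1) / 2 = k := by omega
    have h5 : Nat.beq 1 0 = false := rfl
    have h6 : Nat.beq 0 0 = true := rfl
    simp only [h1, h2, h3, h4, h5, h6, cond_true, cond_false, inv_inv]

/-- The inverse word (accumulator version). -/
def invW (w : List ℕ) : List ℕ := (w.map invL).reverse

theorem ev_invW (x : ℕ → Q) (w : List ℕ) : ev x (invW w) = (ev x w)⁻¹ := by
  induction w with
  | nil => simp [invW]
  | cons l w ih =>
    have : invW (l :: w) = invW w ++ [invL l] := by simp [invW]
    rw [this, ev_append, ih]
    simp [letter_invL]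

/-- Try to cancel the letter `l` placed in front of a word, moving it through commuting letters. -/
def cancel (comm : ℕ → ℕ → Bool) (l : ℕ) : List ℕ → Option (List ℕ)
  | [] => none
  | m :: w =>
    bif Nat.beq m (invL l) then some w
    else bif comm (l / 2) (m / 2) then
      match cancel comm l w with
      | some w' => some (m :: w')
      | none => none
    else none

/-- Put the letter `l` in front of a word, cancelling it if possible. -/
def push (comm : ℕ → ℕ → Bool) (l : ℕ) (w : List ℕ) : List ℕ :=
  match cancel comm l w with
  | some w' => w'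
  | none => l :: w

/-- Commute-and-cancel reduction. -/
def red (comm : ℕ → ℕ → Bool) : List ℕ → List ℕ
  | [] => []
  | l :: w => push comm l (red comm w)

/-- The pairs of indices declared to commute do commute. -/
def Comm (comm : ℕ → ℕ → Bool) (x : ℕ → Q) : Prop :=
  ∀ i j, comm i j = true → Commute (x i) (x j)

theorem comm_letter {comm : ℕ → ℕ → Bool} {x : ℕ → Q} (hc : Comm comm x) (l m : ℕ)
    (h : comm (l / 2) (m / 2) = true) : Commute (letter x l) (letter x m) := by
  have h' := hc _ _ h
  unfold letter
  cases Nat.beq (l % 2) 0 <;> cases Nat.beq (m % 2) 0 <;> simp only [cond_true, cond_false]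
  · exact h'.inv_inv
  · exact h'.inv_left
  · exact h'.inv_right
  · exact h'

theorem cancel_sound {comm : ℕ → ℕ → Bool} {x : ℕ → Q} (hc : Comm comm x) (l : ℕ)
    (w w' : List ℕ) (h : cancel comm l w = some w') : letter x l * ev x w = ev x w' := by
  induction w generalizing w' with
  | nil => simp [cancel] at h
  | cons m w ih =>
    unfold cancel at h
    cases hb : Nat.beq m (invL l) with
    | true =>
      rw [hb] at h
      simp only [cond_true, Option.some.injEq] at h
      have hm : m = invL l := Nat.eq_of_beq_eq_true hb
      subst h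
      rw [ev_cons, hm, letter_invL]
      group
    | false =>
      rw [hb] at h
      simp only [cond_false] at h
      cases hcm : comm (l / 2) (m / 2) with
      | false =>
        rw [hcm] at h
        simp at h
      | true =>
        rw [hcm] at h
        simp only [cond_true] at h
        cases hr : cancel comm l w with
        | none => rw [hr] at h; simp at h
        | some w'' =>
          rw [hr] at h
          simp only [Option.some.injEq] at h
          subst h
          have := ih w'' hr
          rw [ev_cons, ev_cons, ← this, ← mul_assoc, (comm_letter hc l m hcm).eq, mul_assoc]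

theorem ev_push {comm : ℕ → ℕ → Bool} {x : ℕ → Q} (hc : Comm comm x) (l : ℕ) (w : List ℕ) :
    ev x (push comm l w) = letter x l * ev x w := by
  unfold push
  cases h : cancel comm l w with
  | none => rfl
  | some w' => exact (cancel_sound hc l w w' h).symm

theorem ev_red {comm : ℕ → ℕ → Bool} {x : ℕ → Q} (hc : Comm comm x) (w : List ℕ) :
    ev x (red comm w) = ev x w := by
  induction w with
  | nil => rfl
  | cons l w ih => rw [red, ev_push hc, ih, ev_cons]

/-- Is the word empty? -/
def isNil : List ℕ → Bool
  | [] => true
  | _ :: _ => false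

theorem isNil_iff (w : List ℕ) : isNil w = true ↔ w = [] := by
  cases w <;> simp [isNil]

/-- Equality check of two words. -/
def eqW (comm : ℕ → ℕ → Bool) (w1 w2 : List ℕ) : Bool := isNil (red comm (w1 ++ invW w2))

theorem eqW_sound {comm : ℕ → ℕ → Bool} {x : ℕ → Q} (hc : Comm comm x) {w1 w2 : List ℕ}
    (h : eqW comm w1 w2 = true) : ev x w1 = ev x w2 := by
  have h1 : red comm (w1 ++ invW w2) = [] := (isNil_iff _).1 h
  have h2 := ev_red hc (w1 ++ invW w2)
  rw [h1, ev_append, ev_invW, ev_nil] at h2
  exact (mul_inv_eq_one.1 h2.symm)

/-- The empty commutation table: equality in the free group. -/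
def noComm : ℕ → ℕ → Bool := fun _ _ => false

theorem comm_noComm (x : ℕ → Q) : Comm noComm x := fun _ _ h => by simp [noComm] at h

theorem ev_map_hom {R : Type*} [Group R] (φ : Q →* R) (x : ℕ → Q) (w : List ℕ) :
    φ (ev x w) = ev (fun i => φ (x i)) w := by
  induction w with
  | nil => simp
  | cons l w ih =>
    rw [ev_cons, ev_cons, map_mul, ih]
    congr 1
    unfold letter
    cases Nat.beq (l % 2) 0 <;> simp

theorem ev_mem_closure (x : ℕ → Q) (S : Set Q) (hx : ∀ i, x i ∈ Subgroup.closure S)
    (w : List ℕ) : ev x w ∈ Subgroup.closure S := by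
  induction w with
  | nil => exact one_mem _
  | cons l w ih =>
    rw [ev_cons]
    refine mul_mem ?_ ih
    unfold letter
    cases Nat.beq (l % 2) 0
    · exact inv_mem (hx _)
    · exact hx _

/-! ### Packed words: one natural number, base 32, digit `l + 1` for the letter `l`, the first
letter in the lowest digit; the empty word is `0`. -/

/-- Decode a packed word (`fuel` bounds the length). -/
def unpack : ℕ → ℕ → List ℕ
  | 0, _ => []
  | fuel + 1, c => bif Nat.beq c 0 then [] else (c % 32 - 1) :: unpack fuel (c / 32)

end Words

/-! ### Commutation tables for explicit lists of pairs -/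

/-- Commutation table given by a list of pairs. -/
def tableComm (E : List (ℕ × ℕ)) (i j : ℕ) : Bool :=
  E.any (fun p => (Nat.beq p.1 i && Nat.beq p.2 j) || (Nat.beq p.1 j && Nat.beq p.2 i))

/-! ### Right-angled Artin groups -/

/-- The relators, exactly as in the frozen statement. -/
def raagRels {W : Type} (H : SimpleGraph W) : Set (FreeGroup W) :=
  {r : FreeGroup W | ∃ a b : W, H.Adj a b ∧
    r = FreeGroup.of a * FreeGroup.of b * (FreeGroup.of a)⁻¹ * (FreeGroup.of b)⁻¹}

/-- The right-angled Artin group `A(H)`. -/
abbrev Raag {W : Type} (H : SimpleGraph W) : Type := PresentedGroup (raagRels H)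

theorem raag_comm {W : Type} (H : SimpleGraph W) {a b : W} (h : H.Adj a b) :
    Commute (PresentedGroup.of (rels := raagRels H) a)
      (PresentedGroup.of (rels := raagRels H) b) := by
  have h1 : (PresentedGroup.mk (raagRels H))
      (FreeGroup.of a * FreeGroup.of b * (FreeGroup.of a)⁻¹ * (FreeGroup.of b)⁻¹) = 1 :=
    PresentedGroup.one_of_mem (rels := raagRels H) ⟨a, b, h, rfl⟩
  rw [map_mul, map_mul, map_mul, map_inv, map_inv] at h1
  have h2 : PresentedGroup.of (rels := raagRels H) a * PresentedGroup.of (rels := raagRels H) b *
      (PresentedGroup.of (rels := raagRels H) a)⁻¹ *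
      (PresentedGroup.of (rels := raagRels H) b)⁻¹ = 1 := h1
  rw [mul_inv_eq_one, mul_inv_eq_iff_eq_mul] at h2
  exact h2

/-- The homomorphism out of `A(H)` given by images of generators which commute along edges. -/
def raagLift {W : Type} (H : SimpleGraph W) {Q : Type*} [Group Q] (f : W → Q)
    (hf : ∀ a b, H.Adj a b → Commute (f a) (f b)) : Raag H →* Q :=
  PresentedGroup.toGroup (f := f) (by
    rintro r ⟨a, b, h, rfl⟩
    have := (hf a b h).eq
    simp only [map_mul, map_inv, FreeGroup.lift_apply_of]
    rw [this]
    group)

@[simp] theorem raagLift_of {W : Type} (H : SimpleGraph W) {Q : Type*} [Group Q] (f : W → Q)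
    (hf : ∀ a b, H.Adj a b → Commute (f a) (f b)) (a : W) :
    raagLift H f hf (PresentedGroup.of a) = f a := by
  unfold raagLift
  exact PresentedGroup.toGroup.of _

theorem raag_closure {W : Type} (H : SimpleGraph W) :
    Subgroup.closure (Set.range (PresentedGroup.of (rels := raagRels H))) = ⊤ :=
  PresentedGroup.closure_range_of _

/-- If two distinct vertices are not adjacent then `A(H)` is not cyclic. -/
theorem raag_not_cyclic {W : Type} [DecidableEq W] (H : SimpleGraph W) (a b : W) (hab : a ≠ b)
    (hn : ¬ H.Adj a b) : ¬ IsCyclic (Raag H) := by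
  intro hcyc
  let f : W → Equiv.Perm (Fin 3) := fun w =>
    if w = a then Equiv.swap 0 1 else if w = b then Equiv.swap 1 2 else 1
  have hf : ∀ u v, H.Adj u v → Commute (f u) (f v) := by
    intro u v huv
    by_cases hua : u = a
    · subst hua
      have hvb : v ≠ b := fun h => hn (h ▸ huv)
      have hva : v ≠ u := fun h => H.loopless.irrefl u (by rw [h] at huv; exact huv)
      have : f v = 1 := by simp [f, hvb, hva]
      rw [this]; exact Commute.one_right _
    · by_cases hub : u = b
      · subst hub
        have hvb : v ≠ a := fun h => hn (h ▸ huv.symm)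
        have hva : v ≠ u := fun h => H.loopless.irrefl u (by rw [h] at huv; exact huv)
        have : f v = 1 := by simp [f, hvb, hva]
        rw [this]; exact Commute.one_right _
      · have : f u = 1 := by simp [f, hua, hub]
        rw [this]; exact Commute.one_left _
  let φ := raagLift H f hf
  have hcomm : ∀ g h : Raag H, g * h = h * g := by
    obtain ⟨z, hz⟩ := hcyc.exists_generator
    intro g h
    obtain ⟨m, rfl⟩ := Subgroup.mem_zpowers_iff.1 (hz g)
    obtain ⟨n, rfl⟩ := Subgroup.mem_zpowers_iff.1 (hz h)
    rw [← zpow_add, ← zpow_add, add_comm]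
  have h1 := congrArg φ (hcomm (PresentedGroup.of a) (PresentedGroup.of b))
  rw [map_mul, map_mul, raagLift_of, raagLift_of] at h1
  have ha : f a = Equiv.swap 0 1 := by simp [f]
  have hb : f b = Equiv.swap 1 2 := by simp [f, Ne.symm hab]
  rw [ha, hb] at h1
  exact absurd h1 (by decide)

end Pool.Agent.MP_340815_al.H75
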