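import Pool.Agent.Lib.MP_340815_al.H75.Raag

/-!
# MP_340815_al: the defining graph
-/

set_option autoImplicit false

namespace Pool.Agent.MP_340815_al.H75

/-- The 14 commuting pairs of generators. -/
def pairs : List (ℕ × ℕ) :=
  [(1, 0), (2, 0), (5, 0), (6, 0), (1, 3), (1, 4), (1, 7), (2, 3), (2, 4), (2, 7), (9, 2), (5, 3),
    (6, 3), (8, 3)]

/-- The commutation table. -/
def commD : ℕ → ℕ → Bool := tableComm pairs

/-- The defining graph. -/
def Delta : SimpleGraph (Fin 10) where
  Adj i j := commD i j = true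
  symm := ⟨fun i j h => by revert i j; decide⟩
  loopless := ⟨fun i h => by revert i; decide⟩

instance : DecidableRel Delta.Adj := fun i j => inferInstanceAs (Decidable (commD i j = true))

theorem Delta_adj {i j : Fin 10} : Delta.Adj i j ↔ commD i j = true := Iff.rfl

theorem Delta_connected : Delta.Connected := by
  rw [SimpleGraph.connected_iff_exists_forall_reachable]
  refine ⟨0, ?_⟩
  have h : ∀ a b : Fin 10, Delta.Adj a b → Delta.Reachable a b := fun a b h => h.reachable
  have h1 := h 0 1 (by decide)
  have h2 := h 0 2 (by decide)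
  have h5 := h 0 5 (by decide)
  have h6 := h 0 6 (by decide)
  have h3 := h1.trans (h 1 3 (by decide))
  have h4 := h1.trans (h 1 4 (by decide))
  have h7 := h1.trans (h 1 7 (by decide))
  have h9 := h2.trans (h 2 9 (by decide))
  have h8 := h3.trans (h 3 8 (by decide))
  intro w
  fin_cases w
  · exact SimpleGraph.Reachable.refl _
  · exact h1
  · exact h2
  · exact h3
  · exact h4
  · exact h5
  · exact h6
  · exact h7
  · exact h8
  · exact h9

theorem Delta_not_cyclic : ¬ IsCyclic (Raag Delta) :=
  raag_not_cyclic Delta 0 3 (by decide) (by decide)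

/-- The generators of `A(Delta)`, indexed by natural numbers (`1` outside `0..9`). -/
def genD (i : ℕ) : Raag Delta := if h : i < 10 then PresentedGroup.of ⟨i, h⟩ else 1

theorem genD_comm : Comm commD genD := by
  intro i j h
  unfold genD
  by_cases hi : i < 10
  · by_cases hj : j < 10
    · rw [dif_pos hi, dif_pos hj]
      exact raag_comm Delta (a := ⟨i, hi⟩) (b := ⟨j, hj⟩) h
    · rw [dif_neg hj]
      exact Commute.one_right _
  · rw [dif_neg hi]
    exact Commute.one_left _

/-- Homomorphisms out of `A(Delta)` from a family `x : ℕ → K` with the 14 commutations. -/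
theorem exists_hom {K : Type*} [Group K] (x : ℕ → K) (hx : Comm commD x)
    (hx1 : ∀ i, 10 ≤ i → x i = 1) :
    ∃ φ : Raag Delta →* K, ∀ i, φ (genD i) = x i := by
  refine ⟨raagLift Delta (fun i => x i) (fun a b h => hx a b h), fun i => ?_⟩
  unfold genD
  by_cases hi : i < 10
  · rw [dif_pos hi, raagLift_of]
  · rw [dif_neg hi, map_one, hx1 i (by omega)]

/-- `Comm commD x` from the 14 commutations. -/
theorem comm_of_pairs {K : Type*} [Group K] (x : ℕ → K)
    (h : ∀ p ∈ pairs, Commute (x p.1) (x p.2)) : Comm commD x := by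
  intro i j hij
  unfold commD tableComm at hij
  rw [List.any_eq_true] at hij
  obtain ⟨p, hp, hp'⟩ := hij
  simp only [Bool.or_eq_true, Bool.and_eq_true, Nat.beq_eq] at hp'
  rcases hp' with ⟨h1, h2⟩ | ⟨h1, h2⟩
  · rw [← h1, ← h2]; exact h p hp
  · rw [← h1, ← h2]; exact (h p hp).symm

theorem genD_closure : Subgroup.closure (Set.range genD) = ⊤ := by
  rw [eq_top_iff, ← raag_closure Delta]
  rw [Subgroup.closure_le]
  rintro _ ⟨i, rfl⟩
  apply Subgroup.subset_closure
  refine ⟨i, ?_⟩
  unfold genD
  rw [dif_pos i.2]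

end Pool.Agent.MP_340815_al.H75
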