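import Pool.Agent.Lib.MP_340815_al.H64.Defs

/-!
# MP_340815_al: cocycles on the poset of strata are determined by single moves and squares
-/

set_option autoImplicit false

namespace Pool.Agent.MP_340815_al.H75

open Pool.Agent.MP_340815_al

section General

variable {V : Type} [DecidableEq V] {G : SimpleGraph V}

theorem pos_nonempty {s : Finset V} (h : IsPos G s) : s.Nonempty := by
  obtain ⟨u, v, _, rfl⟩ := h
  exact ⟨u, by simp⟩

theorem pos_card_le {s : Finset V} (h : IsPos G s) : s.card ≤ 2 := by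
  obtain ⟨u, v, _, rfl⟩ := h
  exact Finset.card_le_two

theorem pos_eq_of_mem {s : Finset V} (h : IsPos G s) {x y : V} (hxy : x ≠ y) (hx : x ∈ s)
    (hy : y ∈ s) : s = {x, y} := by
  symm
  apply Finset.eq_of_subset_of_card_le
  · intro z hz
    simp only [Finset.mem_insert, Finset.mem_singleton] at hz
    rcases hz with rfl | rfl
    · exact hx
    · exact hy
  · rw [Finset.card_pair hxy]
    exact pos_card_le h

theorem pos_adj_of_mem {s : Finset V} (h : IsPos G s) {x y : V} (hxy : x ≠ y) (hx : x ∈ s)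
    (hy : y ∈ s) : G.Adj x y := by
  obtain ⟨u, v, huv, rfl⟩ := h
  simp only [Finset.mem_insert, Finset.mem_singleton] at hx hy
  rcases huv with rfl | huv
  · simp only [or_self] at hx hy
    exact absurd (hx.trans hy.symm) hxy
  · rcases hx with rfl | rfl
    · rcases hy with rfl | rfl
      · exact absurd rfl hxy
      · exact huv
    · rcases hy with rfl | rfl
      · exact huv.symm
      · exact absurd rfl hxy

/-- A position is a vertex or has two elements. -/
theorem pos_cases {s : Finset V} (h : IsPos G s) :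
    (∃ v, s = {v}) ∨ (∃ x y, x ≠ y ∧ x ∈ s ∧ y ∈ s) := by
  obtain ⟨u, v, _, rfl⟩ := h
  by_cases huv : u = v
  · subst huv
    exact Or.inl ⟨u, by simp⟩
  · exact Or.inr ⟨u, v, huv, by simp, by simp⟩

theorem pos_eq_of_subset {s t : Finset V} (ht : IsPos G t) (hst : s ⊆ t)
    {x y : V} (hxy : x ≠ y) (hx : x ∈ s) (hy : y ∈ s) : s = t := by
  apply Finset.Subset.antisymm hst
  rw [pos_eq_of_mem ht hxy (hst hx) (hst hy)]
  intro z hz
  simp only [Finset.mem_insert, Finset.mem_singleton] at hz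
  rcases hz with rfl | rfl
  · exact hx
  · exact hy

/-- Two particles cannot be exchanged. -/
theorem two_cycle {p0 p1 q0 q1 : Finset V} (hp0 : IsPos G p0) (hp1 : IsPos G p1)
    (hq0 : IsPos G q0) (hq1 : IsPos G q1) (hne : ∀ v, p0 = {v} → p1 = {v} → False)
    (h00 : p0 ⊆ q0) (h01 : p0 ⊆ q1) (h10 : p1 ⊆ q0) (h11 : p1 ⊆ q1) : q0 = q1 := by
  rcases pos_cases hp0 with ⟨v, rfl⟩ | ⟨x, y, hxy, hx, hy⟩
  · rcases pos_cases hp1 with ⟨w, rfl⟩ | ⟨x, y, hxy, hx, hy⟩
    · have hvw : v ≠ w := fun h => hne v rfl (by rw [h])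
      rw [pos_eq_of_mem hq0 hvw (h00 (by simp)) (h10 (by simp)),
        pos_eq_of_mem hq1 hvw (h01 (by simp)) (h11 (by simp))]
    · rw [← pos_eq_of_subset hq0 h10 hxy hx hy, ← pos_eq_of_subset hq1 h11 hxy hx hy]
  · rw [← pos_eq_of_subset hq0 h00 hxy hx hy, ← pos_eq_of_subset hq1 h01 hxy hx hy]

/-- Three particles cannot be permuted cyclically, when there are no triangles. -/
theorem three_cycle (htri : ∀ a b c, G.Adj a b → G.Adj b c → ¬ G.Adj c a)
    {p0 p1 p2 q0 q1 q2 : Finset V} (hp0 : IsPos G p0) (hp1 : IsPos G p1) (hp2 : IsPos G p2)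
    (hq0 : IsPos G q0) (hq1 : IsPos G q1) (hq2 : IsPos G q2)
    (hne01 : ∀ v, p0 = {v} → p1 = {v} → False) (hne12 : ∀ v, p1 = {v} → p2 = {v} → False)
    (hne20 : ∀ v, p2 = {v} → p0 = {v} → False)
    (h00 : p0 ⊆ q0) (h01 : p0 ⊆ q1) (h11 : p1 ⊆ q1) (h12 : p1 ⊆ q2) (h22 : p2 ⊆ q2)
    (h20 : p2 ⊆ q0) : q0 = q1 ∧ q1 = q2 := by
  have key : q0 = q1 ∨ q1 = q2 ∨ q2 = q0 := by
    rcases pos_cases hp0 with ⟨u, rfl⟩ | ⟨x, y, hxy, hx, hy⟩
    · rcases pos_cases hp1 with ⟨v, rfl⟩ | ⟨x, y, hxy, hx, hy⟩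
      · rcases pos_cases hp2 with ⟨w, rfl⟩ | ⟨x, y, hxy, hx, hy⟩
        · exfalso
          have huv : u ≠ v := fun h => hne01 u rfl (by rw [h])
          have hvw : v ≠ w := fun h => hne12 v rfl (by rw [h])
          have hwu : w ≠ u := fun h => hne20 w rfl (by rw [h])
          exact htri u v w (pos_adj_of_mem hq1 huv (h01 (by simp)) (h11 (by simp)))
            (pos_adj_of_mem hq2 hvw (h12 (by simp)) (h22 (by simp)))
            (pos_adj_of_mem hq0 hwu (h20 (by simp)) (h00 (by simp)))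
        · right; right
          rw [← pos_eq_of_subset hq2 h22 hxy hx hy, ← pos_eq_of_subset hq0 h20 hxy hx hy]
      · right; left
        rw [← pos_eq_of_subset hq1 h11 hxy hx hy, ← pos_eq_of_subset hq2 h12 hxy hx hy]
    · left
      rw [← pos_eq_of_subset hq0 h00 hxy hx hy, ← pos_eq_of_subset hq1 h01 hxy hx hy]
  rcases key with h | h | h
  · refine ⟨h, ?_⟩
    rw [h] at h20
    exact two_cycle hp1 hp2 hq1 hq2 hne12 h11 h12 h20 h22
  · refine ⟨?_, h⟩
    rw [← h] at h22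
    exact two_cycle hp0 hp2 hq0 hq1 (fun v a b => hne20 v b a) h00 h01 h20 h22
  · rw [h] at h12
    have h01' := two_cycle hp0 hp1 hq0 hq1 hne01 h00 h01 h12 h11
    exact ⟨h01', by rw [← h01', h]⟩

/-- All permutations of three letters. -/
theorem perm3_cases (σ : Equiv.Perm (Fin 3)) :
    σ = 1 ∨ σ = Equiv.swap 0 1 ∨ σ = Equiv.swap 1 2 ∨ σ = Equiv.swap 0 1 * Equiv.swap 1 2 ∨
      σ = Equiv.swap 1 2 * Equiv.swap 0 1 ∨
      σ = Equiv.swap 0 1 * Equiv.swap 1 2 * Equiv.swap 0 1 := by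
  revert σ
  decide

theorem otype_unique (htri : ∀ a b c, G.Adj a b → G.Adj b c → ¬ G.Adj c a) (p q : OType G 3)
    (τ : Equiv.Perm (Fin 3)) (h1 : ∀ i, p.pos i ⊆ q.pos i) (h2 : ∀ i, p.pos i ⊆ q.pos (τ i)) :
    q.pos ∘ τ = q.pos := by
  have inj : ∀ i j, i ≠ j → ∀ v, p.pos i = {v} → p.pos j = {v} → False :=
    fun i j hij v hi hj => hij (p.inj i j v hi hj)
  have two : ∀ i j, i ≠ j → τ i = j → τ j = i → q.pos i = q.pos j := fun i j hij hi hj =>
    two_cycle (p.isPos i) (p.isPos j) (q.isPos i) (q.isPos j) (inj i j hij) (h1 i)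
      (hi ▸ h2 i) (hj ▸ h2 j) (h1 j)
  have three : ∀ i j k, i ≠ j → j ≠ k → k ≠ i → τ i = j → τ j = k → τ k = i →
      q.pos i = q.pos j ∧ q.pos j = q.pos k := fun i j k hij hjk hki hi hj hk =>
    three_cycle htri (p.isPos i) (p.isPos j) (p.isPos k) (q.isPos i) (q.isPos j) (q.isPos k)
      (inj i j hij) (inj j k hjk) (inj k i hki) (h1 i) (hi ▸ h2 i) (h1 j) (hj ▸ h2 j) (h1 k)
      (hk ▸ h2 k)
  rcases perm3_cases τ with h | h | h | h | h | h
  · subst h; rfl
  · have e0 : τ 0 = 1 := by rw [h]; decide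
    have e1 : τ 1 = 0 := by rw [h]; decide
    have e2 : τ 2 = 2 := by rw [h]; decide
    have e := two 0 1 (by decide) e0 e1
    funext i
    fin_cases i
    · show q.pos (τ 0) = q.pos 0
      rw [e0, e]
    · show q.pos (τ 1) = q.pos 1
      rw [e1, e]
    · show q.pos (τ 2) = q.pos 2
      rw [e2]
  · have e0 : τ 0 = 0 := by rw [h]; decide
    have e1 : τ 1 = 2 := by rw [h]; decide
    have e2 : τ 2 = 1 := by rw [h]; decide
    have e := two 1 2 (by decide) e1 e2
    funext i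
    fin_cases i
    · show q.pos (τ 0) = q.pos 0
      rw [e0]
    · show q.pos (τ 1) = q.pos 1
      rw [e1, e]
    · show q.pos (τ 2) = q.pos 2
      rw [e2, e]
  · have e0 : τ 0 = 1 := by rw [h]; decide
    have e1 : τ 1 = 2 := by rw [h]; decide
    have e2 : τ 2 = 0 := by rw [h]; decide
    obtain ⟨e, e'⟩ := three 0 1 2 (by decide) (by decide) (by decide) e0 e1 e2
    funext i
    fin_cases i
    · show q.pos (τ 0) = q.pos 0
      rw [e0, e]
    · show q.pos (τ 1) = q.pos 1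
      rw [e1, e']
    · show q.pos (τ 2) = q.pos 2
      rw [e2, e, e']
  · have e0 : τ 0 = 2 := by rw [h]; decide
    have e1 : τ 1 = 0 := by rw [h]; decide
    have e2 : τ 2 = 1 := by rw [h]; decide
    obtain ⟨e, e'⟩ := three 0 2 1 (by decide) (by decide) (by decide) e0 e2 e1
    funext i
    fin_cases i
    · show q.pos (τ 0) = q.pos 0
      rw [e0, e]
    · show q.pos (τ 1) = q.pos 1
      rw [e1, e, e']
    · show q.pos (τ 2) = q.pos 2
      rw [e2, e']
  · have e0 : τ 0 = 2 := by rw [h]; decide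
    have e1 : τ 1 = 1 := by rw [h]; decide
    have e2 : τ 2 = 0 := by rw [h]; decide
    have e := two 0 2 (by decide) e0 e2
    funext i
    fin_cases i
    · show q.pos (τ 0) = q.pos 0
      rw [e0, e]
    · show q.pos (τ 1) = q.pos 1
      rw [e1]
    · show q.pos (τ 2) = q.pos 2
      rw [e2, e]

/-! ### Labels of single moves give a cocycle -/

variable {A : Type*} [Group A]

/-- Three positions with no two equal vertices. -/
def Ok3 (a b c : Finset V) : Prop :=
  (∀ v, a = {v} → b = {v} → False) ∧ (∀ v, b = {v} → c = {v} → False) ∧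
    (∀ v, a = {v} → c = {v} → False)

/-- Data of labels of single moves: `L a b c d` is the label of the move of one particle from
`a` to `b`, the other two particles being at `c` and `d`. -/
structure IsLabel (G : SimpleGraph V) (L : Finset V → Finset V → Finset V → Finset V → A) :
    Prop where
  symm : ∀ a b c d, L a b c d = L a b d c
  id : ∀ a c d, L a a c d = 1
  sq : ∀ a b c d x, IsPos G a → IsPos G b → IsPos G c → IsPos G d → IsPos G x → a ⊆ b → c ⊆ d →
    Ok3 a c x → L a b c x * L c d b x = L c d a x * L a b d x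

/-- The label of a general pair. -/
def lab3 (L : Finset V → Finset V → Finset V → Finset V → A) (p q : Fin 3 → Finset V) : A :=
  L (p 0) (q 0) (p 1) (p 2) * L (p 1) (q 1) (q 0) (p 2) * L (p 2) (q 2) (q 0) (q 1)

theorem ok_of_subset {a b c : Finset V} (hsub : a ⊆ b)
    (ha : IsPos G a)
    (h : ∀ v, a = {v} → c = {v} → False) : ∀ v, b = {v} → c = {v} → False := by
  intro v hb hcv
  refine h v ?_ hcv
  obtain ⟨x, hx⟩ := pos_nonempty ha
  have hxv : x = v := by
    have := hsub hx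
    rw [hb] at this
    simpa using this
  subst hxv
  apply Finset.Subset.antisymm (hb ▸ hsub)
  simpa using hx

theorem lab3_swap01 {L : Finset V → Finset V → Finset V → Finset V → A} (hL : IsLabel G L)
    (p q : OType G 3) (h : ∀ i, p.pos i ⊆ q.pos i) :
    lab3 L (p.pos ∘ Equiv.swap 0 1) (q.pos ∘ Equiv.swap 0 1) = lab3 L p.pos q.pos := by
  have e0 : (Equiv.swap (0 : Fin 3) 1) 0 = 1 := by decide
  have e1 : (Equiv.swap (0 : Fin 3) 1) 1 = 0 := by decide
  have e2 : (Equiv.swap (0 : Fin 3) 1) 2 = 2 := by decide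
  unfold lab3
  simp only [Function.comp, e0, e1, e2]
  rw [hL.symm (p.pos 2) (q.pos 2) (q.pos 1) (q.pos 0)]
  have := hL.sq (p.pos 0) (q.pos 0) (p.pos 1) (q.pos 1) (p.pos 2) (p.isPos 0) (q.isPos 0)
    (p.isPos 1) (q.isPos 1) (p.isPos 2) (h 0) (h 1)
    ⟨fun v a b => absurd (p.inj 0 1 v a b) (by decide),
      fun v a b => absurd (p.inj 1 2 v a b) (by decide),
      fun v a b => absurd (p.inj 0 2 v a b) (by decide)⟩
  rw [this]

theorem lab3_swap12 {L : Finset V → Finset V → Finset V → Finset V → A} (hL : IsLabel G L)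
    (p q : OType G 3) (h : ∀ i, p.pos i ⊆ q.pos i) :
    lab3 L (p.pos ∘ Equiv.swap 1 2) (q.pos ∘ Equiv.swap 1 2) = lab3 L p.pos q.pos := by
  have e0 : (Equiv.swap (1 : Fin 3) 2) 0 = 0 := by decide
  have e1 : (Equiv.swap (1 : Fin 3) 2) 1 = 2 := by decide
  have e2 : (Equiv.swap (1 : Fin 3) 2) 2 = 1 := by decide
  unfold lab3
  simp only [Function.comp, e0, e1, e2]
  rw [hL.symm (p.pos 0) (q.pos 0) (p.pos 2) (p.pos 1)]
  have ok01 : ∀ v, q.pos 0 = {v} → p.pos 1 = {v} → False :=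
    ok_of_subset (h 0) (p.isPos 0) (fun v a b => absurd (p.inj 0 1 v a b) (by decide))
  have ok02 : ∀ v, q.pos 0 = {v} → p.pos 2 = {v} → False :=
    ok_of_subset (h 0) (p.isPos 0) (fun v a b => absurd (p.inj 0 2 v a b) (by decide))
  have := hL.sq (p.pos 1) (q.pos 1) (p.pos 2) (q.pos 2) (q.pos 0) (p.isPos 1) (q.isPos 1)
    (p.isPos 2) (q.isPos 2) (q.isPos 0) (h 1) (h 2)
    ⟨fun v a b => absurd (p.inj 1 2 v a b) (by decide),
      fun v a b => ok02 v b a, fun v a b => ok01 v b a⟩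
  rw [mul_assoc, mul_assoc]
  congr 1
  rw [hL.symm (p.pos 2) (q.pos 2) (q.pos 0) (p.pos 1), hL.symm (p.pos 1) (q.pos 1) (q.pos 0) _,
    hL.symm (p.pos 1) (q.pos 1) (q.pos 0) _, hL.symm (p.pos 2) (q.pos 2) (q.pos 0) _]
  exact this.symm

theorem lab3_perm {L : Finset V → Finset V → Finset V → Finset V → A} (hL : IsLabel G L)
    (σ : Equiv.Perm (Fin 3)) (p q : OType G 3) (h : ∀ i, p.pos i ⊆ q.pos i) :
    lab3 L (p.pos ∘ σ) (q.pos ∘ σ) = lab3 L p.pos q.pos := by
  have mul : ∀ σ τ : Equiv.Perm (Fin 3),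
      (∀ (p q : OType G 3), (∀ i, p.pos i ⊆ q.pos i) →
        lab3 L (p.pos ∘ σ) (q.pos ∘ σ) = lab3 L p.pos q.pos) →
      (∀ (p q : OType G 3), (∀ i, p.pos i ⊆ q.pos i) →
        lab3 L (p.pos ∘ τ) (q.pos ∘ τ) = lab3 L p.pos q.pos) →
      (∀ (p q : OType G 3), (∀ i, p.pos i ⊆ q.pos i) →
        lab3 L (p.pos ∘ ⇑(σ * τ)) (q.pos ∘ ⇑(σ * τ)) = lab3 L p.pos q.pos) := by
    intro σ τ h1 h2 p q hpq
    have := h2 (p.perm σ) (q.perm σ) (fun i => hpq (σ i))
    rw [← h1 p q hpq]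
    exact this
  have s01 : ∀ (p q : OType G 3), (∀ i, p.pos i ⊆ q.pos i) →
      lab3 L (p.pos ∘ Equiv.swap 0 1) (q.pos ∘ Equiv.swap 0 1) = lab3 L p.pos q.pos :=
    fun p q h => lab3_swap01 hL p q h
  have s12 : ∀ (p q : OType G 3), (∀ i, p.pos i ⊆ q.pos i) →
      lab3 L (p.pos ∘ Equiv.swap 1 2) (q.pos ∘ Equiv.swap 1 2) = lab3 L p.pos q.pos :=
    fun p q h => lab3_swap12 hL p q h
  rcases perm3_cases σ with e | e | e | e | e | e
  · subst e; rfl
  · subst e; exact s01 p q h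
  · subst e; exact s12 p q h
  · subst e; exact mul _ _ s01 s12 p q h
  · subst e; exact mul _ _ s12 s01 p q h
  · subst e; exact mul _ _ (mul _ _ s01 s12) s01 p q h

/-- The composition rule for one particle. -/
theorem IsLabel.comp {L : Finset V → Finset V → Finset V → Finset V → A} (hL : IsLabel G L)
    {a b e : Finset V} (c d : Finset V) (ha : IsPos G a) (hb : IsPos G b)
    (he : IsPos G e) (hab : a ⊆ b) (hbe : b ⊆ e) : L a b c d * L b e c d = L a e c d := by
  rcases pos_cases hb with ⟨v, rfl⟩ | ⟨x, y, hxy, hx, hy⟩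
  · have : a = {v} := by
      obtain ⟨x, hx⟩ := pos_nonempty ha
      have hxv : x = v := by simpa using hab hx
      subst hxv
      exact Finset.Subset.antisymm hab (by simpa using hx)
    subst this
    rw [hL.id, one_mul]
  · have := pos_eq_of_subset he hbe hxy hx hy
    subst this
    rw [hL.id, mul_one]

theorem lab3_comp {L : Finset V → Finset V → Finset V → Finset V → A} (hL : IsLabel G L)
    (p q r : OType G 3) (h : ∀ i, p.pos i ⊆ q.pos i) (h' : ∀ i, q.pos i ⊆ r.pos i) :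
    lab3 L p.pos q.pos * lab3 L q.pos r.pos = lab3 L p.pos r.pos := by
  have n01 : ∀ v, p.pos 0 = {v} → p.pos 1 = {v} → False :=
    fun v a b => absurd (p.inj 0 1 v a b) (by decide)
  have n02 : ∀ v, p.pos 0 = {v} → p.pos 2 = {v} → False :=
    fun v a b => absurd (p.inj 0 2 v a b) (by decide)
  have n12 : ∀ v, p.pos 1 = {v} → p.pos 2 = {v} → False :=
    fun v a b => absurd (p.inj 1 2 v a b) (by decide)
  have m01 : ∀ v, q.pos 0 = {v} → q.pos 1 = {v} → False :=
    fun v a b => absurd (q.inj 0 1 v a b) (by decide)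
  have q0p1 : ∀ v, q.pos 0 = {v} → p.pos 1 = {v} → False :=
    ok_of_subset (h 0) (p.isPos 0) n01
  have q0p2 : ∀ v, q.pos 0 = {v} → p.pos 2 = {v} → False :=
    ok_of_subset (h 0) (p.isPos 0) n02
  have q1p2 : ∀ v, q.pos 1 = {v} → p.pos 2 = {v} → False :=
    ok_of_subset (h 1) (p.isPos 1) n12
  have r0p2 : ∀ v, r.pos 0 = {v} → p.pos 2 = {v} → False :=
    ok_of_subset (h' 0) (q.isPos 0) q0p2
  have r0q1 : ∀ v, r.pos 0 = {v} → q.pos 1 = {v} → False :=
    ok_of_subset (h' 0) (q.isPos 0) m01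
  -- move particle 0 (second step) before particle 2 (first step); the other one is at `q 1`
  have A1 := hL.sq (p.pos 2) (q.pos 2) (q.pos 0) (r.pos 0) (q.pos 1) (p.isPos 2) (q.isPos 2)
    (q.isPos 0) (r.isPos 0) (q.isPos 1) (h 2) (h' 0)
    ⟨fun v a b => q0p2 v b a, m01, fun v a b => q1p2 v b a⟩
  -- move particle 0 (second step) before particle 1 (first step); the other one is at `p 2`
  have A2 := hL.sq (p.pos 1) (q.pos 1) (q.pos 0) (r.pos 0) (p.pos 2) (p.isPos 1) (q.isPos 1)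
    (q.isPos 0) (r.isPos 0) (p.isPos 2) (h 1) (h' 0)
    ⟨fun v a b => q0p1 v b a, q0p2, n12⟩
  -- move particle 1 (second step) before particle 2 (first step); the other one is at `r 0`
  have A3 := hL.sq (p.pos 2) (q.pos 2) (q.pos 1) (r.pos 1) (r.pos 0) (p.isPos 2) (q.isPos 2)
    (q.isPos 1) (r.isPos 1) (r.isPos 0) (h 2) (h' 1)
    ⟨fun v a b => q1p2 v b a, fun v a b => r0q1 v b a, fun v a b => r0p2 v b a⟩
  have C0 := hL.comp (p.pos 1) (p.pos 2) (p.isPos 0) (q.isPos 0) (r.isPos 0) (h 0) (h' 0)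
  have C1 := hL.comp (r.pos 0) (p.pos 2) (p.isPos 1) (q.isPos 1) (r.isPos 1) (h 1) (h' 1)
  have C2 := hL.comp (r.pos 0) (r.pos 1) (p.isPos 2) (q.isPos 2) (r.isPos 2) (h 2) (h' 2)
  rw [hL.symm (q.pos 0) (r.pos 0) (p.pos 2) (q.pos 1),
    hL.symm (p.pos 2) (q.pos 2) (r.pos 0) (q.pos 1)] at A1
  rw [hL.symm (q.pos 1) (r.pos 1) (p.pos 2) (r.pos 0),
    hL.symm (p.pos 2) (q.pos 2) (r.pos 1) (r.pos 0)] at A3
  unfold lab3
  rw [← C0, ← C1, ← C2, hL.symm (q.pos 0) (r.pos 0) (q.pos 1) (q.pos 2),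
    hL.symm (q.pos 1) (r.pos 1) (r.pos 0) (q.pos 2)]
  calc _ = L (p.pos 0) (q.pos 0) (p.pos 1) (p.pos 2) *
        (L (p.pos 1) (q.pos 1) (q.pos 0) (p.pos 2) *
        ((L (p.pos 2) (q.pos 2) (q.pos 0) (q.pos 1) *
        L (q.pos 0) (r.pos 0) (q.pos 2) (q.pos 1)) *
        (L (q.pos 1) (r.pos 1) (q.pos 2) (r.pos 0) *
        L (q.pos 2) (r.pos 2) (r.pos 0) (r.pos 1)))) := by group
    _ = L (p.pos 0) (q.pos 0) (p.pos 1) (p.pos 2) *
        ((L (p.pos 1) (q.pos 1) (q.pos 0) (p.pos 2) *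
        L (q.pos 0) (r.pos 0) (q.pos 1) (p.pos 2)) *
        ((L (p.pos 2) (q.pos 2) (q.pos 1) (r.pos 0) *
        L (q.pos 1) (r.pos 1) (q.pos 2) (r.pos 0)) *
        L (q.pos 2) (r.pos 2) (r.pos 0) (r.pos 1))) := by
          rw [A1]; group
    _ = _ := by
          rw [A2, A3]; group

/-- The value on unordered types. -/
noncomputable def gOf (L : Finset V → Finset V → Finset V → Finset V → A) (p q : UType G 3) : A :=
  open Classical in
  if h : ∃ pq : OType G 3 × OType G 3, UType.mk pq.1 = p ∧ UType.mk pq.2 = q ∧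
      ∀ i, pq.1.pos i ⊆ pq.2.pos i then
    lab3 L h.choose.1.pos h.choose.2.pos
  else 1

theorem gOf_mk (htri : ∀ a b c, G.Adj a b → G.Adj b c → ¬ G.Adj c a)
    {L : Finset V → Finset V → Finset V → Finset V → A} (hL : IsLabel G L) (p q : OType G 3)
    (h : ∀ i, p.pos i ⊆ q.pos i) :
    gOf L (UType.mk p) (UType.mk q) = lab3 L p.pos q.pos := by
  have hex : ∃ pq : OType G 3 × OType G 3, UType.mk pq.1 = UType.mk p ∧
      UType.mk pq.2 = UType.mk q ∧ ∀ i, pq.1.pos i ⊆ pq.2.pos i := ⟨(p, q), rfl, rfl, h⟩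
  unfold gOf
  rw [dif_pos hex]
  obtain ⟨h1, h2, h3⟩ := hex.choose_spec
  set P := hex.choose.1
  set Q := hex.choose.2
  obtain ⟨σ, hσ⟩ := (UType.mk_eq_iff P p).1 h1
  obtain ⟨τ, hτ⟩ := (UType.mk_eq_iff Q q).1 h2
  rw [← lab3_perm hL σ P Q h3, ← hσ]
  have key : (Q.perm σ).pos ∘ ⇑(σ⁻¹ * τ) = (Q.perm σ).pos := by
    apply otype_unique htri p (Q.perm σ) (σ⁻¹ * τ)
    · intro i
      rw [hσ]
      exact h3 (σ i)
    · intro i
      have e : (Q.perm σ).pos ((σ⁻¹ * τ) i) = q.pos i := by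
        rw [hτ]
        show Q.pos (σ ((σ⁻¹ * τ) i)) = Q.pos (τ i)
        congr 1
        simp
      rw [e]
      exact h i
  have e2 : Q.pos ∘ σ = q.pos := by
    have e3 : (Q.perm σ).pos ∘ ⇑(σ⁻¹ * τ) = q.pos := by
      rw [hτ]
      funext i
      show Q.pos (σ ((σ⁻¹ * τ) i)) = Q.pos (τ i)
      congr 1
      simp
    rw [← e3, key]
    rfl
  rw [e2]

theorem gOf_cocycle (htri : ∀ a b c, G.Adj a b → G.Adj b c → ¬ G.Adj c a)
    {L : Finset V → Finset V → Finset V → Finset V → A} (hL : IsLabel G L) (p q r : UType G 3)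
    (hpq : p ≤ q) (hqr : q ≤ r) : gOf L p q * gOf L q r = gOf L p r := by
  obtain ⟨q', rfl⟩ := q.exists_rep
  obtain ⟨p', rfl, h1⟩ := (UType.le_mk_iff _ _).1 hpq
  obtain ⟨r', rfl, h2⟩ := (UType.mk_le_iff _ _).1 hqr
  rw [gOf_mk htri hL p' q' h1, gOf_mk htri hL q' r' h2,
    gOf_mk htri hL p' r' (fun i => (h1 i).trans (h2 i)), lab3_comp hL p' q' r' h1 h2]

end General

/-! ### Codes for the concrete graph -/

/-- First end of a position code (vertices `0..9`, edges `10..22`). -/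
def e1 (a : ℕ) : ℕ := (1980623407542303905287516688 / 16 ^ a) % 16

/-- Second end of a position code. -/
def e2 (a : ℕ) : ℕ := (2949290073746069044721889808 / 16 ^ a) % 16

/-- `a` is a vertex, `b` an edge, and `a` is an end of `b`. -/
def mv (a b : ℕ) : Bool :=
  Nat.blt a 10 && (Nat.ble 10 b && (Nat.blt b 23 && (Nat.beq (e1 b) a || Nat.beq (e2 b) a)))

/-- Valid triples of position codes. -/
def okT (a b c : ℕ) : Bool :=
  Nat.blt a 23 && (Nat.blt b 23 && (Nat.blt c 23 &&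
    (!(Nat.beq a b && Nat.blt a 10) && (!(Nat.beq b c && Nat.blt b 10) &&
      !(Nat.beq a c && Nat.blt a 10)))))

/-- The support of a position code. -/
def supp (a : ℕ) : Finset (Fin 10) := {Fin.ofNat 10 (e1 a), Fin.ofNat 10 (e2 a)}

theorem supp_isPos {a : ℕ} (h : a < 23) : IsPos Gam (supp a) := by
  have : ∀ a : Fin 23, (Fin.ofNat 10 (e1 a) = Fin.ofNat 10 (e2 a) ∨
      Gam.Adj (Fin.ofNat 10 (e1 a)) (Fin.ofNat 10 (e2 a))) := by decide
  exact ⟨_, _, this ⟨a, h⟩, rfl⟩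

theorem supp_inj {a b : ℕ} (ha : a < 23) (hb : b < 23) (h : supp a = supp b) : a = b := by
  have : ∀ a b : Fin 23, supp a = supp b → a = b := by decide
  exact congrArg Fin.val (this ⟨a, ha⟩ ⟨b, hb⟩ h)

theorem supp_sub {a b : ℕ} (ha : a < 23) (hb : b < 23) :
    supp a ⊆ supp b ↔ a = b ∨ mv a b = true := by
  have : ∀ a b : Fin 23, supp a ⊆ supp b ↔ a = b ∨ mv a b = true := by decide
  have h := this ⟨a, ha⟩ ⟨b, hb⟩
  simpa using h

theorem supp_singleton {a : ℕ} (ha : a < 23) {v : Fin 10} (h : supp a = {v}) : a < 10 := by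
  have : ∀ a : Fin 23, ∀ v : Fin 10, supp a = {v} → (a : ℕ) < 10 := by decide
  exact this ⟨a, ha⟩ v h

theorem supp_vertex {a : ℕ} (ha : a < 10) : supp a = {⟨a, ha⟩} := by
  have : ∀ a : Fin 10, supp a = {a} := by decide
  exact this ⟨a, ha⟩

theorem supp_surj {s : Finset (Fin 10)} (h : IsPos Gam s) : ∃ a < 23, supp a = s := by
  have : ∀ u v : Fin 10, (u = v ∨ Gam.Adj u v) → ∃ a : Fin 23, supp a = {u, v} := by decide
  obtain ⟨u, v, huv, rfl⟩ := h
  obtain ⟨a, ha⟩ := this u v huv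
  exact ⟨a, a.2, ha⟩

theorem okT_iff (a b c : ℕ) : okT a b c = true ↔ a < 23 ∧ b < 23 ∧ c < 23 ∧ ¬ (a = b ∧ a < 10) ∧
    ¬ (b = c ∧ b < 10) ∧ ¬ (a = c ∧ a < 10) := by
  unfold okT
  simp only [Bool.and_eq_true, Bool.not_eq_true', Bool.and_eq_false_iff, Nat.blt_eq]
  have h1 : ∀ x y : ℕ, (Nat.beq x y = false) ↔ ¬ x = y := by
    intro x y
    rw [← Bool.not_eq_true, Nat.beq_eq]
  have h2 : ∀ x y : ℕ, (Nat.blt x y = false) ↔ ¬ x < y := by
    intro x y
    rw [← Bool.not_eq_true, Nat.blt_eq]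
  simp only [h1, h2]
  tauto

theorem mv_lt {a b : ℕ} (h : mv a b = true) : a < 10 ∧ 10 ≤ b ∧ b < 23 := by
  unfold mv at h
  simp only [Bool.and_eq_true, Nat.blt_eq, Nat.ble_eq] at h
  exact ⟨h.1, h.2.1, h.2.2.1⟩

/-- The ordered type of a valid triple of codes. -/
def otype (a b c : ℕ) (h : okT a b c = true) : OType Gam 3 where
  pos := ![supp a, supp b, supp c]
  isPos := by
    obtain ⟨ha, hb, hc, -⟩ := (okT_iff a b c).1 h
    intro i
    fin_cases i
    · exact supp_isPos ha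
    · exact supp_isPos hb
    · exact supp_isPos hc
  inj := by
    obtain ⟨ha, hb, hc, hab, hbc, hac⟩ := (okT_iff a b c).1 h
    have key : ∀ x y : ℕ, x < 23 → y < 23 → ¬ (x = y ∧ x < 10) → ∀ v : Fin 10,
        supp x = {v} → supp y = {v} → False := by
      intro x y hx hy hxy v h1 h2
      exact hxy ⟨supp_inj hx hy (h1.trans h2.symm), supp_singleton hx h1⟩
    have hba : ¬ (b = a ∧ b < 10) := fun h => hab ⟨h.1.symm, h.1 ▸ h.2⟩
    have hcb : ¬ (c = b ∧ c < 10) := fun h => hbc ⟨h.1.symm, h.1 ▸ h.2⟩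
    have hca : ¬ (c = a ∧ c < 10) := fun h => hac ⟨h.1.symm, h.1 ▸ h.2⟩
    intro i j v hi hj
    fin_cases i <;> fin_cases j
    · rfl
    · exact (key a b ha hb hab v hi hj).elim
    · exact (key a c ha hc hac v hi hj).elim
    · exact (key b a hb ha hba v hi hj).elim
    · rfl
    · exact (key b c hb hc hbc v hi hj).elim
    · exact (key c a hc ha hca v hi hj).elim
    · exact (key c b hc hb hcb v hi hj).elim
    · rfl

/-- The unordered type of a triple of codes. -/
def T (a b c : ℕ) : UType Gam 3 :=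
  if h : okT a b c = true then UType.mk (otype a b c h) else UType.mk (otype 0 1 2 (by decide))

theorem T_of_ok {a b c : ℕ} (h : okT a b c = true) : T a b c = UType.mk (otype a b c h) := by
  unfold T
  rw [dif_pos h]

theorem okT_swap01 (a b c : ℕ) : okT b a c = okT a b c := by
  have h := okT_iff a b c
  have h' := okT_iff b a c
  rw [Bool.eq_iff_iff, h, h']
  constructor <;> rintro ⟨h1, h2, h3, h4, h5, h6⟩ <;>
    exact ⟨h2, h1, h3, fun e => h4 ⟨e.1.symm, e.1 ▸ e.2⟩, h6, h5⟩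

theorem okT_swap12 (a b c : ℕ) : okT a c b = okT a b c := by
  have h := okT_iff a b c
  have h' := okT_iff a c b
  rw [Bool.eq_iff_iff, h, h']
  constructor <;> rintro ⟨h1, h2, h3, h4, h5, h6⟩ <;>
    exact ⟨h1, h3, h2, h6, fun e => h5 ⟨e.1.symm, e.1 ▸ e.2⟩, h4⟩

theorem T_swap01 (a b c : ℕ) : T b a c = T a b c := by
  by_cases h : okT a b c = true
  · have h' : okT b a c = true := by rw [okT_swap01]; exact h
    rw [T_of_ok h, T_of_ok h']
    rw [UType.mk_eq_iff]
    refine ⟨Equiv.swap 0 1, ?_⟩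
    have e0 : (Equiv.swap (0 : Fin 3) 1) 0 = 1 := by decide
    have e1 : (Equiv.swap (0 : Fin 3) 1) 1 = 0 := by decide
    have e2 : (Equiv.swap (0 : Fin 3) 1) 2 = 2 := by decide
    funext i
    fin_cases i
    · show _ = (otype b a c h').pos ((Equiv.swap (0 : Fin 3) 1) 0)
      rw [e0]; rfl
    · show _ = (otype b a c h').pos ((Equiv.swap (0 : Fin 3) 1) 1)
      rw [e1]; rfl
    · show _ = (otype b a c h').pos ((Equiv.swap (0 : Fin 3) 1) 2)
      rw [e2]; rfl
  · have h' : ¬ okT b a c = true := by rw [okT_swap01]; exact h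
    unfold T
    rw [dif_neg h, dif_neg h']

theorem T_swap12 (a b c : ℕ) : T a c b = T a b c := by
  by_cases h : okT a b c = true
  · have h' : okT a c b = true := by rw [okT_swap12]; exact h
    rw [T_of_ok h, T_of_ok h']
    rw [UType.mk_eq_iff]
    refine ⟨Equiv.swap 1 2, ?_⟩
    have e0 : (Equiv.swap (1 : Fin 3) 2) 0 = 0 := by decide
    have e1 : (Equiv.swap (1 : Fin 3) 2) 1 = 2 := by decide
    have e2 : (Equiv.swap (1 : Fin 3) 2) 2 = 1 := by decide
    funext i
    fin_cases i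
    · show _ = (otype a c b h').pos ((Equiv.swap (1 : Fin 3) 2) 0)
      rw [e0]; rfl
    · show _ = (otype a c b h').pos ((Equiv.swap (1 : Fin 3) 2) 1)
      rw [e1]; rfl
    · show _ = (otype a c b h').pos ((Equiv.swap (1 : Fin 3) 2) 2)
      rw [e2]; rfl
  · have h' : ¬ okT a c b = true := by rw [okT_swap12]; exact h
    unfold T
    rw [dif_neg h, dif_neg h']

/-- Codes of an ordered type. -/
theorem exists_codes (p : OType Gam 3) : ∃ a b c, ∃ h : okT a b c = true, otype a b c h = p := by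
  obtain ⟨a, ha, ea⟩ := supp_surj (p.isPos 0)
  obtain ⟨b, hb, eb⟩ := supp_surj (p.isPos 1)
  obtain ⟨c, hc, ec⟩ := supp_surj (p.isPos 2)
  have key : ∀ (x y : ℕ) (i j : Fin 3), i ≠ j → supp x = p.pos i → supp y = p.pos j →
      ¬ (x = y ∧ x < 10) := by
    rintro x y i j hij hx hy ⟨rfl, hlt⟩
    refine hij (p.inj i j ⟨x, hlt⟩ ?_ ?_)
    · rw [← hx, supp_vertex hlt]
    · rw [← hy, supp_vertex hlt]
  have h : okT a b c = true := (okT_iff a b c).2 ⟨ha, hb, hc, key a b 0 1 (by decide) ea eb,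
    key b c 1 2 (by decide) eb ec, key a c 0 2 (by decide) ea ec⟩
  refine ⟨a, b, c, h, OType.ext' ?_⟩
  funext i
  fin_cases i
  · exact ea
  · exact eb
  · exact ec

theorem T_surj (p : UType Gam 3) : ∃ a b c, okT a b c = true ∧ T a b c = p := by
  obtain ⟨p', rfl⟩ := p.exists_rep
  obtain ⟨a, b, c, h, rfl⟩ := exists_codes p'
  exact ⟨a, b, c, h, T_of_ok h⟩

/-- Every unordered type has a sorted code. -/
theorem T_surj_sorted (p : UType Gam 3) :
    ∃ a b c, a ≤ b ∧ b ≤ c ∧ okT a b c = true ∧ T a b c = p := by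
  obtain ⟨a, b, c, h, rfl⟩ := T_surj p
  have s01 := fun a b c => okT_swap01 a b c
  have s12 := fun a b c => okT_swap12 a b c
  rcases le_total a b with h1 | h1 <;> rcases le_total b c with h2 | h2 <;>
    rcases le_total a c with h3 | h3
  · exact ⟨a, b, c, h1, h2, h, rfl⟩
  · exact ⟨a, b, c, h1, h2, h, rfl⟩
  · exact ⟨a, c, b, h3, h2, by rw [s12, h], by rw [T_swap12]⟩
  · exact ⟨c, a, b, h3, h1, by rw [s01, s12, h], by rw [T_swap01, T_swap12]⟩
  · exact ⟨b, a, c, h1, h3, by rw [s01, h], by rw [T_swap01]⟩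
  · exact ⟨b, c, a, h2, h3, by rw [s12, s01, h], by rw [T_swap12, T_swap01]⟩
  · exact ⟨c, b, a, h2, h1, by rw [s01, s12, s01, h], by rw [T_swap01, T_swap12, T_swap01]⟩
  · exact ⟨c, b, a, h2, h1, by rw [s01, s12, s01, h], by rw [T_swap01, T_swap12, T_swap01]⟩

/-- Sorted codes are unique. -/
theorem T_inj {a b c a' b' c' : ℕ} (h : okT a b c = true) (h' : okT a' b' c' = true)
    (hab : a ≤ b) (hbc : b ≤ c) (hab' : a' ≤ b') (hbc' : b' ≤ c') (e : T a b c = T a' b' c') :
    a = a' ∧ b = b' ∧ c = c' := by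
  rw [T_of_ok h, T_of_ok h', UType.mk_eq_iff] at e
  obtain ⟨σ, hσ⟩ := e
  obtain ⟨ha, hb, hc, -⟩ := (okT_iff a b c).1 h
  obtain ⟨ha', hb', hc', -⟩ := (okT_iff a' b' c').1 h'
  have key : ∀ i : Fin 3, (![a', b', c'] : Fin 3 → ℕ) i = (![a, b, c] : Fin 3 → ℕ) (σ i) := by
    intro i
    have hi := congrFun hσ i
    have e1 : (otype a' b' c' h').pos i = supp ((![a', b', c'] : Fin 3 → ℕ) i) := by
      fin_cases i <;> rfl
    have e2 : ((otype a b c h).pos ∘ σ) i = supp ((![a, b, c] : Fin 3 → ℕ) (σ i)) := by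
      show (otype a b c h).pos (σ i) = _
      generalize σ i = j
      fin_cases j <;> rfl
    rw [e1, e2] at hi
    refine supp_inj ?_ ?_ hi
    · fin_cases i
      · exact ha'
      · exact hb'
      · exact hc'
    · generalize σ i = j
      fin_cases j
      · exact ha
      · exact hb
      · exact hc
  have k0 := key 0
  have k1 := key 1
  have k2 := key 2
  rcases perm3_cases σ with e | e | e | e | e | e
  all_goals
    rw [e] at k0 k1 k2
  · simp at k0 k1 k2; omega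
  · have e0 : (Equiv.swap (0 : Fin 3) 1) 0 = 1 := by decide
    have e1 : (Equiv.swap (0 : Fin 3) 1) 1 = 0 := by decide
    have e2 : (Equiv.swap (0 : Fin 3) 1) 2 = 2 := by decide
    rw [e0] at k0; rw [e1] at k1; rw [e2] at k2
    simp at k0 k1 k2; omega
  · have e0 : (Equiv.swap (1 : Fin 3) 2) 0 = 0 := by decide
    have e1 : (Equiv.swap (1 : Fin 3) 2) 1 = 2 := by decide
    have e2 : (Equiv.swap (1 : Fin 3) 2) 2 = 1 := by decide
    rw [e0] at k0; rw [e1] at k1; rw [e2] at k2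
    simp at k0 k1 k2; omega
  · have e0 : (Equiv.swap (0 : Fin 3) 1 * Equiv.swap 1 2 : Equiv.Perm (Fin 3)) 0 = 1 := by decide
    have e1 : (Equiv.swap (0 : Fin 3) 1 * Equiv.swap 1 2 : Equiv.Perm (Fin 3)) 1 = 2 := by decide
    have e2 : (Equiv.swap (0 : Fin 3) 1 * Equiv.swap 1 2 : Equiv.Perm (Fin 3)) 2 = 0 := by decide
    rw [e0] at k0; rw [e1] at k1; rw [e2] at k2
    simp at k0 k1 k2; omega
  · have e0 : (Equiv.swap (1 : Fin 3) 2 * Equiv.swap 0 1 : Equiv.Perm (Fin 3)) 0 = 2 := by decide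
    have e1 : (Equiv.swap (1 : Fin 3) 2 * Equiv.swap 0 1 : Equiv.Perm (Fin 3)) 1 = 0 := by decide
    have e2 : (Equiv.swap (1 : Fin 3) 2 * Equiv.swap 0 1 : Equiv.Perm (Fin 3)) 2 = 1 := by decide
    rw [e0] at k0; rw [e1] at k1; rw [e2] at k2
    simp at k0 k1 k2; omega
  · have e0 : (Equiv.swap (0 : Fin 3) 1 * Equiv.swap 1 2 * Equiv.swap 0 1 : Equiv.Perm (Fin 3)) 0 = 2 := by decide
    have e1 : (Equiv.swap (0 : Fin 3) 1 * Equiv.swap 1 2 * Equiv.swap 0 1 : Equiv.Perm (Fin 3)) 1 = 1 := by decide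
    have e2 : (Equiv.swap (0 : Fin 3) 1 * Equiv.swap 1 2 * Equiv.swap 0 1 : Equiv.Perm (Fin 3)) 2 = 0 := by decide
    rw [e0] at k0; rw [e1] at k1; rw [e2] at k2
    simp at k0 k1 k2; omega

/-- Comparison of position codes. -/
def le1 (a b : ℕ) : Prop := a = b ∨ mv a b = true

theorem T_le {a b c a' b' c' : ℕ} (h : okT a b c = true) (h' : okT a' b' c' = true)
    (ha : le1 a a') (hb : le1 b b') (hc : le1 c c') : T a b c ≤ T a' b' c' := by
  rw [T_of_ok h, T_of_ok h']
  obtain ⟨ha1, hb1, hc1, -⟩ := (okT_iff a b c).1 h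
  obtain ⟨ha2, hb2, hc2, -⟩ := (okT_iff a' b' c').1 h'
  refine ⟨_, _, rfl, rfl, fun i => ?_⟩
  fin_cases i
  · exact (supp_sub ha1 ha2).2 ha
  · exact (supp_sub hb1 hb2).2 hb
  · exact (supp_sub hc1 hc2).2 hc

theorem exists_of_le {p q : UType Gam 3} (h : p ≤ q) : ∃ a b c a' b' c', okT a b c = true ∧
    okT a' b' c' = true ∧ le1 a a' ∧ le1 b b' ∧ le1 c c' ∧ T a b c = p ∧ T a' b' c' = q := by
  obtain ⟨p', q', rfl, rfl, h⟩ := h
  obtain ⟨a, b, c, hp, rfl⟩ := exists_codes p'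
  obtain ⟨a', b', c', hq, rfl⟩ := exists_codes q'
  obtain ⟨ha1, hb1, hc1, -⟩ := (okT_iff a b c).1 hp
  obtain ⟨ha2, hb2, hc2, -⟩ := (okT_iff a' b' c').1 hq
  exact ⟨a, b, c, a', b', c', hp, hq, (supp_sub ha1 ha2).1 (h 0), (supp_sub hb1 hb2).1 (h 1),
    (supp_sub hc1 hc2).1 (h 2), T_of_ok hp, T_of_ok hq⟩

theorem okT_mv {a b c a' : ℕ} (h : okT a b c = true) (ha : le1 a a') : okT a' b c = true := by
  rcases ha with rfl | ha
  · exact h
  · obtain ⟨h1, h2, h3⟩ := mv_lt ha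
    obtain ⟨ha1, hb1, hc1, hab, hbc, hac⟩ := (okT_iff a b c).1 h
    exact (okT_iff _ _ _).2 ⟨h3, hb1, hc1, by omega, hbc, by omega⟩

section Main

variable {A : Type*} [Group A]

open Classical in
/-- The code of a position. -/
noncomputable def code (s : Finset (Fin 10)) : ℕ :=
  if h : ∃ a < 23, supp a = s then h.choose else 0

theorem code_supp {a : ℕ} (ha : a < 23) : code (supp a) = a := by
  have h : ∃ b < 23, supp b = supp a := ⟨a, ha, rfl⟩
  unfold code
  rw [dif_pos h]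
  exact supp_inj h.choose_spec.1 ha h.choose_spec.2

/-- Labels on finsets from labels on codes. -/
noncomputable def liftLab (lab : ℕ → ℕ → ℕ → ℕ → A) (s t u v : Finset (Fin 10)) : A :=
  if s = t then 1 else lab (code s) (code t) (code u) (code v)

theorem liftLab_isLabel (lab : ℕ → ℕ → ℕ → ℕ → A)
    (hsymm : ∀ a b c d, lab a b c d = lab a b d c)
    (hsq : ∀ a b c d x, mv a b = true → mv c d = true → okT a c x = true →
      lab a b c x * lab c d b x = lab c d a x * lab a b d x) : IsLabel Gam (liftLab lab) where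
  symm a b c d := by
    unfold liftLab
    rw [hsymm]
  id a c d := by
    unfold liftLab
    rw [if_pos rfl]
  sq := by
    intro a b c d x ha hb hc hd hx hab hcd hok
    obtain ⟨a, ha', rfl⟩ := supp_surj ha
    obtain ⟨b, hb', rfl⟩ := supp_surj hb
    obtain ⟨c, hc', rfl⟩ := supp_surj hc
    obtain ⟨d, hd', rfl⟩ := supp_surj hd
    obtain ⟨x, hx', rfl⟩ := supp_surj hx
    unfold liftLab
    rw [code_supp ha', code_supp hb', code_supp hc', code_supp hd', code_supp hx']
    rcases (supp_sub ha' hb').1 hab with rfl | hab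
    · simp
    rcases (supp_sub hc' hd').1 hcd with rfl | hcd
    · simp
    have hab' : a ≠ b := by
      have := mv_lt hab; omega
    have hcd' : c ≠ d := by
      have := mv_lt hcd; omega
    have e1 : supp a ≠ supp b := fun h => hab' (supp_inj ha' hb' h)
    have e2 : supp c ≠ supp d := fun h => hcd' (supp_inj hc' hd' h)
    rw [if_neg e1, if_neg e2, if_neg e1, if_neg e2]
    apply hsq a b c d x hab hcd
    obtain ⟨h1, h2, h3⟩ := hok
    rw [okT_iff]
    refine ⟨ha', hc', hx', ?_, ?_, ?_⟩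
    · rintro ⟨rfl, hlt⟩
      exact h1 _ (supp_vertex hlt) (supp_vertex hlt)
    · rintro ⟨rfl, hlt⟩
      exact h2 _ (supp_vertex hlt) (supp_vertex hlt)
    · rintro ⟨rfl, hlt⟩
      exact h3 _ (supp_vertex hlt) (supp_vertex hlt)

/-- **Cocycles from labels of single moves satisfying the square relations.** -/
theorem exists_cocycle (lab : ℕ → ℕ → ℕ → ℕ → A)
    (hsymm : ∀ a b c d, lab a b c d = lab a b d c)
    (hsq : ∀ a b c d x, mv a b = true → mv c d = true → okT a c x = true →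
      lab a b c x * lab c d b x = lab c d a x * lab a b d x) :
    ∃ g : UType Gam 3 → UType Gam 3 → A,
      (∀ p q r, p ≤ q → q ≤ r → g p q * g q r = g p r) ∧
      ∀ a b c d, mv a b = true → okT a c d = true → g (T a c d) (T b c d) = lab a b c d := by
  have hL := liftLab_isLabel lab hsymm hsq
  refine ⟨gOf (liftLab lab), fun p q r hpq hqr => gOf_cocycle Gam_no_triangle hL p q r hpq hqr,
    fun a b c d hab hok => ?_⟩
  have hok' : okT b c d = true := okT_mv hok (Or.inr hab)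
  obtain ⟨ha, hc, hd, -⟩ := (okT_iff _ _ _).1 hok
  obtain ⟨hb, -⟩ := (okT_iff _ _ _).1 hok'
  have hab' : a ≠ b := by
    have := mv_lt hab; omega
  have hsub : ∀ i, (otype a c d hok).pos i ⊆ (otype b c d hok').pos i := by
    intro i
    fin_cases i
    · exact (supp_sub ha hb).2 (Or.inr hab)
    · exact Finset.Subset.refl _
    · exact Finset.Subset.refl _
  rw [T_of_ok hok, T_of_ok hok', gOf_mk Gam_no_triangle hL _ _ hsub]
  show liftLab lab (supp a) (supp b) (supp c) (supp d) *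
    liftLab lab (supp c) (supp c) (supp b) (supp d) *
    liftLab lab (supp d) (supp d) (supp b) (supp c) = lab a b c d
  rw [hL.id, hL.id, mul_one, mul_one]
  unfold liftLab
  rw [if_neg (fun h => hab' (supp_inj ha hb h)), code_supp ha, code_supp hb, code_supp hc,
    code_supp hd]

theorem cocycle_refl {P : Type*} [Preorder P] (h : P → P → A)
    (hh : ∀ p q r, p ≤ q → q ≤ r → h p q * h q r = h p r) (p : P) : h p p = 1 := by
  have := hh p p p le_rfl le_rfl
  exact mul_eq_left.1 this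

/-- **Two cocycles which agree on single moves agree.** -/
theorem cocycle_ext (g h : UType Gam 3 → UType Gam 3 → A)
    (hg : ∀ p q r, p ≤ q → q ≤ r → g p q * g q r = g p r)
    (hh : ∀ p q r, p ≤ q → q ≤ r → h p q * h q r = h p r)
    (hmv : ∀ a b c d, mv a b = true → okT a c d = true →
      g (T a c d) (T b c d) = h (T a c d) (T b c d)) (p q : UType Gam 3) (hpq : p ≤ q) :
    g p q = h p q := by
  obtain ⟨a, b, c, a', b', c', hok, hok', ha, hb, hc, rfl, rfl⟩ := exists_of_le hpq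
  have step : ∀ a a' b c, le1 a a' → okT a b c = true →
      g (T a b c) (T a' b c) = h (T a b c) (T a' b c) := by
    intro a a' b c ha hok
    rcases ha with rfl | ha
    · rw [cocycle_refl g hg, cocycle_refl h hh]
    · exact hmv _ _ _ _ ha hok
  have ok1 : okT a' b c = true := okT_mv hok ha
  have ok2 : okT b a' c = true := by rw [okT_swap01]; exact ok1
  have ok3 : okT b' a' c = true := okT_mv ok2 hb
  have ok3' : okT a' b' c = true := by rw [okT_swap01]; exact ok3
  have ok4 : okT c a' b' = true := by rw [okT_swap01, okT_swap12]; exact ok3'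
  have e1 := step a a' b c ha hok
  have e2 := step b b' a' c hb ok2
  have e3 := step c c' a' b' hc ok4
  rw [T_swap01 a' b c, T_swap01 a' b' c] at e2
  have E1 : ∀ x, T x a' b' = T a' b' x := fun x => by rw [T_swap01, T_swap12]
  rw [E1, E1] at e3
  have l1 : T a b c ≤ T a' b c := T_le hok ok1 ha (Or.inl rfl) (Or.inl rfl)
  have l2 : T a' b c ≤ T a' b' c := T_le ok1 ok3' (Or.inl rfl) hb (Or.inl rfl)
  have l3 : T a' b' c ≤ T a' b' c' := T_le ok3' hok' (Or.inl rfl) (Or.inl rfl) hc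
  rw [← hg _ _ _ l1 (l2.trans l3), ← hg _ _ _ l2 l3, ← hh _ _ _ l1 (l2.trans l3),
    ← hh _ _ _ l2 l3, e1, e2, e3]

end Main

end Pool.Agent.MP_340815_al.H75
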